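import Pool.Agent.Q274.DC.Stm

/-!
# Project DC (helper274), job ONE: cubing bijective
-/

set_option autoImplicit false

namespace Pool.Agent.Q153.DC

open Pool.Agent.Q274.DC

theorem cube_bij {F : Type} [Field F] [Fintype F] (hq : Fintype.card F % 3 ≠ 1) :
    Function.Bijective (fun x : F => x ^ 3) := by
  rw [← Finite.injective_iff_bijective]
  intro x y hxy
  have hxy' : x ^ 3 = y ^ 3 := hxy
  rcases eq_or_ne y 0 with hy | hy
  · rw [hy] at hxy' ⊢
    rw [zero_pow (by norm_num)] at hxy'
    exact (pow_eq_zero_iff (by norm_num)).1 hxy'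
  · have hz3 : (x / y) ^ 3 = 1 := by
      rw [div_pow, hxy', div_self (pow_ne_zero _ hy)]
    have hz0 : x / y ≠ 0 := by
      intro h
      rw [h, zero_pow (by norm_num)] at hz3
      exact zero_ne_one hz3
    have hzq := FiniteField.pow_card_sub_one_eq_one (x / y) hz0
    have hcop : Nat.gcd 3 (Fintype.card F - 1) = 1 := by
      have h1 : 1 < Fintype.card F := Fintype.one_lt_card
      rw [← Nat.coprime_iff_gcd_eq_one, Nat.Prime.coprime_iff_not_dvd Nat.prime_three]
      intro h
      omega
    have h2 := pow_gcd_eq_one.2 ⟨hz3, hzq⟩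
    rw [hcop, pow_one, div_eq_one_iff_eq hy] at h2
    exact h2

theorem one : S_ONE := by
  intro F _ _ t hq a ha
  let e : F ≃ F := Equiv.ofBijective _ (cube_bij hq)
  have he : ∀ x : F, e x = x ^ 3 := fun x => rfl
  have he' : ∀ x : F, (e.symm x) ^ 3 = x := fun x => by rw [← he]; exact e.apply_symm_apply x
  constructor
  · unfold cone
    let E : {x : Fin (2 * t + 3) → F // ∑ i, a i * x i ^ 3 = 0} ≃ (Fin (2 * t + 2) → F) :=
      { toFun := fun x i => x.1 i.succ
        invFun := fun v => ⟨Fin.cons (e.symm (-(∑ i : Fin (2 * t + 2), a i.succ * v i ^ 3) / a 0)) v, by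
          rw [Fin.sum_univ_succ]
          simp only [Fin.cons_zero, Fin.cons_succ]
          rw [he', mul_div_cancel₀ _ (ha 0)]
          exact neg_add_cancel _⟩
        left_inv := by
          rintro ⟨x, hx⟩
          apply Subtype.ext
          funext i
          refine Fin.cases ?_ (fun j => ?_) i
          · simp only [Fin.cons_zero]
            rw [Equiv.symm_apply_eq, he, div_eq_iff (ha 0)]
            rw [Fin.sum_univ_succ] at hx
            linear_combination -hx
          · simp only [Fin.cons_succ]
        right_inv := by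
          intro v
          funext i
          simp only [Fin.cons_succ] }
    rw [Nat.card_congr E, Nat.card_eq_fintype_card, Fintype.card_fun, Fintype.card_fin]
    push_cast
    rfl
  · intro D
    unfold aff
    let E : {P : F × F // P.2 ^ 2 + D * P.2 = P.1 ^ 3} ≃ F :=
      { toFun := fun P => P.1.2
        invFun := fun y => ⟨(e.symm (y ^ 2 + D * y), y), (he' _).symm⟩
        left_inv := by
          rintro ⟨⟨x, y⟩, h⟩
          apply Subtype.ext
          refine Prod.ext ?_ rfl
          show e.symm (y ^ 2 + D * y) = x
          rw [Equiv.symm_apply_eq, he]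
          exact h
        right_inv := fun y => rfl }
    rw [Nat.card_congr E, Nat.card_eq_fintype_card]

end Pool.Agent.Q153.DC
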